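import Pool.Agent.X42.HankelPF

/-!
# The Gaussian half-factor is not a Pólya frequency function

A minor of order 12 is negative.
-/

set_option autoImplicit false

namespace Pool.Agent.Results.MP_41e59c_pr.NotPF

open Filter Topology MeasureTheory
open scoped ContDiff

/-- The Gaussian half-factor. -/
noncomputable def g (z : ℝ) : ℝ :=
  (2 / Real.pi) ^ (1 / 4 : ℝ) *
    Real.exp (Real.pi ^ 2 / 12 + z - ∫ t in (0 : ℝ)..Real.exp z, Real.log (1 + t) / t)

/-- Pólya frequency functions of order `k`. -/
def IsPF (k : ℕ) (f : ℝ → ℝ) : Prop :=
  Measurable f ∧ (∀ x, 0 ≤ f x) ∧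
    ∀ n ≤ k, ∀ x y : Fin n → ℝ, StrictMono x → StrictMono y →
      0 ≤ (Matrix.of fun i j => f (x i - y j)).det

/-- Pólya frequency functions of infinite order. -/
def IsPFInfty (f : ℝ → ℝ) : Prop := ∀ k : ℕ, 1 ≤ k → IsPF k f

/-! ### The derivative of `g` -/

theorem phi_bound {t : ℝ} (ht : 0 < t) : ‖Real.log (1 + t) / t‖ ≤ 1 := by
  have h1 : 0 ≤ Real.log (1 + t) := Real.log_nonneg (by linarith)
  have h2 : Real.log (1 + t) ≤ t := by
    have := Real.log_le_sub_one_of_pos (show (0 : ℝ) < 1 + t by linarith)
    linarith
  rw [Real.norm_of_nonneg (div_nonneg h1 ht.le), div_le_one ht]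
  exact h2

theorem phi_measurable : Measurable (fun t : ℝ => Real.log (1 + t) / t) := by
  fun_prop

theorem phi_intervalIntegrable {b : ℝ} (hb : 0 < b) :
    IntervalIntegrable (fun t : ℝ => Real.log (1 + t) / t) volume 0 b := by
  rw [intervalIntegrable_iff_integrableOn_Ioc_of_le hb.le]
  refine Measure.integrableOn_of_bounded (M := 1) (by simp) phi_measurable.aestronglyMeasurable ?_
  rw [ae_restrict_iff' measurableSet_Ioc]
  filter_upwards with t ht
  exact phi_bound ht.1

theorem hasDerivAt_integral {b : ℝ} (hb : 0 < b) :
    HasDerivAt (fun b : ℝ => ∫ t in (0 : ℝ)..b, Real.log (1 + t) / t) (Real.log (1 + b) / b) b := by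
  refine intervalIntegral.integral_hasDerivAt_right (phi_intervalIntegrable hb)
    (phi_measurable.stronglyMeasurable.stronglyMeasurableAtFilter) ?_
  refine ContinuousAt.div ?_ continuousAt_id hb.ne'
  refine ContinuousAt.log (by fun_prop) (by positivity)

theorem hasDerivAt_g (z : ℝ) : HasDerivAt g (g z * (1 - Real.log (1 + Real.exp z))) z := by
  have h1 : HasDerivAt (fun z : ℝ => ∫ t in (0 : ℝ)..Real.exp z, Real.log (1 + t) / t)
      (Real.log (1 + Real.exp z) / Real.exp z * Real.exp z) z :=
    (hasDerivAt_integral (Real.exp_pos z)).comp z (Real.hasDerivAt_exp z)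
  have h2 : Real.log (1 + Real.exp z) / Real.exp z * Real.exp z = Real.log (1 + Real.exp z) := by
    field_simp
  rw [h2] at h1
  have h3 : HasDerivAt (fun z : ℝ => Real.pi ^ 2 / 12 + z -
      ∫ t in (0 : ℝ)..Real.exp z, Real.log (1 + t) / t) (1 - Real.log (1 + Real.exp z)) z :=
    ((hasDerivAt_id z).const_add _).sub h1
  have h4 := (h3.exp).const_mul ((2 / Real.pi) ^ (1 / 4 : ℝ))
  refine h4.congr_deriv ?_
  unfold g
  ring

theorem g_pos (z : ℝ) : 0 < g z := by
  unfold g
  have := Real.pi_pos
  positivity

/-! ### The normalised function -/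

/-- the point where `p = 10/13` -/
noncomputable def z0 : ℝ := Real.log (10 / 3)

theorem exp_z0 : Real.exp z0 = 10 / 3 := Real.exp_log (by norm_num)

/-- the logistic function -/
noncomputable def p (z : ℝ) : ℝ := Real.exp z / (1 + Real.exp z)

/-- the logarithmic derivative of `G` -/
noncomputable def H (z : ℝ) : ℝ := Real.log (1 + Real.exp z0) - Real.log (1 + Real.exp z)

/-- the exponent of the twist -/
noncomputable def c : ℝ := 1 - Real.log (1 + Real.exp z0)

/-- the twisted function -/
noncomputable def G (z : ℝ) : ℝ := Real.exp (-c * z) * g z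

theorem G_pos (z : ℝ) : 0 < G z := mul_pos (Real.exp_pos _) (g_pos z)

theorem hasDerivAt_G (z : ℝ) : HasDerivAt G (H z * G z) z := by
  have h1 : HasDerivAt (fun z : ℝ => Real.exp (-c * z)) (Real.exp (-c * z) * (-c * 1)) z :=
    ((hasDerivAt_id z).const_mul (-c)).exp
  have h2 := h1.mul (hasDerivAt_g z)
  refine h2.congr_deriv ?_
  unfold G H c
  ring

theorem deriv_G : deriv G = H * G := by
  funext z
  exact (hasDerivAt_G z).deriv

theorem one_add_exp_ne (z : ℝ) : 1 + Real.exp z ≠ 0 := by
  have := Real.exp_pos z
  positivity

theorem contDiff_p : ContDiff ℝ ∞ p :=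
  ContDiff.div Real.contDiff_exp (contDiff_const.add Real.contDiff_exp) one_add_exp_ne

theorem contDiff_H : ContDiff ℝ ∞ H :=
  contDiff_const.sub ((contDiff_const.add Real.contDiff_exp).log one_add_exp_ne)

theorem contDiff_G : ContDiff ℝ ∞ G := by
  rw [contDiff_infty]
  intro n
  induction n with
  | zero =>
    have : Continuous G := by
      rw [continuous_iff_continuousAt]
      intro z
      exact (hasDerivAt_G z).continuousAt
    exact contDiff_zero.2 this
  | succ n ih =>
    have h := (contDiff_succ_iff_deriv (n := (n : ℕ∞ω)) (f := G) (𝕜 := ℝ)).2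
      ⟨fun z => (hasDerivAt_G z).differentiableAt, by simp, ?_⟩
    · exact_mod_cast h
    · rw [deriv_G]
      exact (contDiff_H.of_le (by exact_mod_cast le_top)).mul ih

theorem hasDerivAt_p (z : ℝ) : HasDerivAt p (p z - p z * p z) z := by
  have h1 : HasDerivAt (fun z : ℝ => 1 + Real.exp z) (Real.exp z) z :=
    (Real.hasDerivAt_exp z).const_add 1
  have h2 := (Real.hasDerivAt_exp z).div h1 (one_add_exp_ne z)
  refine h2.congr_deriv ?_
  unfold p
  have := one_add_exp_ne z
  field_simp

theorem deriv_p : deriv p = p - p * p := by
  funext z
  exact (hasDerivAt_p z).deriv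

theorem deriv_H : deriv H = -p := by
  funext z
  have h1 : HasDerivAt (fun z : ℝ => 1 + Real.exp z) (Real.exp z) z :=
    (Real.hasDerivAt_exp z).const_add 1
  have h2 := (h1.log (one_add_exp_ne z)).const_sub (Real.log (1 + Real.exp z0))
  exact h2.deriv

theorem p_z0 : p z0 = 10 / 13 := by
  unfold p
  rw [exp_z0]
  norm_num

theorem H_z0 : H z0 = 0 := by
  unfold H
  ring

theorem iter_p_succ (k : ℕ) : iteratedDeriv (k + 1) p z0 = iteratedDeriv k p z0 -
    ∑ j ∈ Finset.range (k + 1), k.choose j * iteratedDeriv j p z0 *
      iteratedDeriv (k - j) p z0 := by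
  have hp : ContDiffAt ℝ (k : ℕ∞ω) p z0 :=
    (contDiff_p.of_le (by exact_mod_cast le_top)).contDiffAt
  have hpp : ContDiffAt ℝ (k : ℕ∞ω) (p * p) z0 := hp.mul hp
  rw [iteratedDeriv_succ', deriv_p, iteratedDeriv_sub hp hpp, iteratedDeriv_mul hp hp]

theorem iter_H_succ (k : ℕ) : iteratedDeriv (k + 1) H z0 = - iteratedDeriv k p z0 := by
  rw [iteratedDeriv_succ', deriv_H, iteratedDeriv_neg]

theorem iter_G_succ (k : ℕ) : iteratedDeriv (k + 1) G z0 =
    ∑ j ∈ Finset.range (k + 1), k.choose j * iteratedDeriv j H z0 *
      iteratedDeriv (k - j) G z0 := by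
  have hH : ContDiffAt ℝ (k : ℕ∞ω) H z0 :=
    (contDiff_H.of_le (by exact_mod_cast le_top)).contDiffAt
  have hG : ContDiffAt ℝ (k : ℕ∞ω) G z0 :=
    (contDiff_G.of_le (by exact_mod_cast le_top)).contDiffAt
  rw [iteratedDeriv_succ', deriv_G, iteratedDeriv_mul hH hG]

/-! ### Numerical tables -/

/-- the derivatives of `p` at the point where `p = 10/13` -/
def rt : ℕ → ℚ := fun k => ([10 / 13, 30 / 169, -210 / 2197, -330 / 28561, 40110 / 371293,
  -466170 / 4826809, -10155810 / 62748517, 489426870 / 815730721, -2345626290 / 10604499373,
  -467784329370 / 137858491849, 16090140502590 / 1792160394037, 278793445586070 / 23298085122481,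
  -40963229888676690 / 302875106592253, 63334421397478110 / 302875106592253,
  6110266149181774230 / 3937376385699289, -452048892969092700210 / 51185893014090757,
  -1892591478051110703930 / 665416609183179841, 1924784875642127354203710 / 8650415919381337933,
  -87167672618635149168632970 / 112455406951957393129,
  -5248152247555666551467193810 / 1461920290375446110677,
  784828631987158254604185039270 / 19004963774880799438801,
  -12669522202779548796255457134690 / 247064529073450392704413] : List ℚ).getD k 0

/-- the derivatives of `G / G(z₀)` -/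
def st : ℕ → ℚ := fun k => ([1, 0, -10 / 13, -30 / 169, 4110 / 2197, 39330 / 28561,
  -2867610 / 371293, -56536230 / 4826809, 2795274510 / 62748517, 96048700530 / 815730721,
  -3443526428010 / 10604499373, -192106846433430 / 137858491849,
  5021716649870910 / 1792160394037, 445910735075729730 / 23298085122481,
  -8230806903725644410 / 302875106592253, -91039149369914964510 / 302875106592253,
  1108902363949507704870 / 3937376385699289, 272444720113544553803610 / 51185893014090757,
  -1949084753764471812104370 / 665416609183179841,
  -906492878807453961984920910 / 8650415919381337933,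
  3063904120819661011160891670 / 112455406951957393129,
  3302457390935463324548389244010 / 1461920290375446110677,
  -2385104003756548573387672231170 / 19004963774880799438801] : List ℚ).getD k 0

/-- the entries below the diagonal of the triangular factor -/
def lt : List (List ℚ) := [[],
  [0],
  [-10 / 13, 3 / 13],
  [-30 / 169, -411 / 169, 231 / 377],
  [4110 / 2197, -3933 / 2197, -24513 / 4901, 186014 / 172679],
  [39330 / 28561, 286761 / 28561, -428205 / 63713, -19073425 / 2244827, 1390475370 / 890076109],
  [-2867610 / 371293, 5653623 / 371293, 25920939 / 828269, -493450210 / 29182751,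
  -450843721735 / 34712968251, 2453066223738985 / 1220901374026529],
  [-56536230 / 4826809, -279527451 / 4826809, 803131671 / 10767497, 28579051963 / 379375763,
  -15231969091600 / 451268587263, -295205915661180660 / 15871717862344877,
  1305124787043911172804341 / 552735136896610944700541],
  [2795274510 / 62748517, -9604870053 / 62748517, -33682868433 / 139977461,
  1205535089814 / 4931884919, 918614355338419 / 5866491634419,
  -11851610996834997370 / 206332332210483401,
  -182990523539145712309721582 / 7185556779655942281107033,
  27788356515485757509891428852194236 / 10851758873938137629502971508433387],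
  [96048700530 / 815730721, 344352642801 / 815730721, -1692899360805 / 1819706993,
  -48259559129465 / 64114503947, 47426081084741890 / 76264391247447,
  795828140336742434603 / 2682320318736284213,
  -8044275491830480307544878426 / 93412238135527249654391429,
  -4743483446970176395786524584682609798 / 141072865361195789183538629609634031,
  19898239376600206078486518131487886736933522604 / 7803138816786503625845538904759604627827458599],
  [-3443526428010 / 10604499373, 19210684643343 / 10604499373, 1775992673631 / 815730721,
  -3137668679529970 / 833488551311, -1991202542200200995 / 991437086216811,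
  45857785995503029883715 / 34870164143571694769,
  637811123293533416460487974979 / 1214359095761854245507088577,
  -210775635048245320571024543748292830160 / 1833947249695545259386002184925242403,
  -4336134283245537459192572234284394171802538313700 / 101440804618224547135992005761874860161756961787, 655603953959352285788076466099111555343028918541672833984855 / 287442860654605061880720394455880356512184847475767150343213],
  [-192106846433430 / 137858491849, -502171664987091 / 137858491849,
  4058716950897711 / 307530481817, 91589549819043843 / 10835351167043,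
  -150039607239233949100 / 12888682120818543, -2193885337913241266332070 / 453312133866432031997,
  37646638588730482372870466327207 / 15786668244904105191592151501,
  20809815587912484596176346729840177833093 / 23841314246042088372018028404028151239,
  -178311239369904491163097890285464259694512720560570 / 1318730460036919112767896074904373182102840503231, -191605598569086667442071443677803205382131151836326386651164305 / 3736757188509865804449365127926444634658403017184972954461769, 2574416624928826944225089337965859547475546389485346945793667474049324591845 / 1416604495778133526608598467545271185542265416248583917119360510581768991959]]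

/-- the diagonal factor -/
def dt : List ℚ := [1, -10 / 13, 2900 / 2197, -39849000 / 10767497,
  12324130740000 / 833488551311, -56349294185839800000 / 726062426139444589,
  85036174907170914569314000000 / 168311622119669148456262121,
  -50085040956637558290013714654307940000000 / 12877670269603430303797308881851962221,
  1440579473868277592463791797801773162060453895200000000 / 42727459133546730664482205629430949762526869761843, -1591991228240889573493220646217183512990562232173479601900872000000000 / 5192338172451725247436223120911019378762833056982768832598902759, 78458095150788933781399299740968865660802392284536955409687659047605667246960000000000 / 32324503870348394305751772708034491229766939559994096180514829699616065117983477, 78831982997202311754009225770230927246972446587121170898098903547540364290190006543140308709600000000000 / 26922517125596708059415632536653890117231810253984351647150408318562350391269715243405310681601159]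

theorem rt_rec : ∀ k < 21, rt (k + 1) = rt k -
    ∑ j ∈ Finset.range (k + 1), (k.choose j : ℚ) * rt j * rt (k - j) := by
  decide +kernel

/-- the derivatives of `H` -/
def ht (k : ℕ) : ℚ := if k = 0 then 0 else - rt (k - 1)

theorem st_rec : ∀ k < 22, st (k + 1) =
    ∑ j ∈ Finset.range (k + 1), (k.choose j : ℚ) * ht j * st (k - j) := by
  decide +kernel

/-- the triangular factor -/
def Lm : Matrix (Fin 12) (Fin 12) ℚ :=
  Matrix.of fun i j => if i = j then 1 else if i < j then 0 else (lt.getD i.val []).getD j.val 0

/-- the diagonal factor -/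
def Dv : Fin 12 → ℚ := fun i => dt.getD i.val 0

theorem factor : ∀ i j : Fin 12,
    ∑ k, Lm i k * Dv k * Lm j k = st (i.val + j.val) := by
  decide +kernel

theorem prod_neg : Dv 0 * Dv 1 * Dv 2 * Dv 3 * Dv 4 * Dv 5 * Dv 6 * Dv 7 * Dv 8 * Dv 9 * Dv 10 *
    Dv 11 < 0 := by
  decide +kernel

theorem det_st_neg : (Matrix.of fun i j : Fin 12 => st (i.val + j.val)).det < 0 := by
  have h1 : (Matrix.of fun i j : Fin 12 => st (i.val + j.val)) =
      Lm * Matrix.diagonal Dv * Lm.transpose := by
    ext i j
    rw [Matrix.mul_apply]
    simp only [Matrix.mul_diagonal, Matrix.transpose_apply, Matrix.of_apply]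
    exact (factor i j).symm
  have h2 : Lm.det = 1 := by
    rw [Matrix.det_of_isLowerTriangular Lm]
    · have : ∀ i, Lm i i = 1 := by
        intro i
        simp [Lm]
      simp [this]
    · intro i j hij
      have h3 : i < j := hij
      simp [Lm, h3, h3.ne]
  rw [h1, Matrix.det_mul, Matrix.det_mul, Matrix.det_transpose, h2, Matrix.det_diagonal, one_mul,
    mul_one]
  have h4 : ∏ i, Dv i = Dv 0 * Dv 1 * Dv 2 * Dv 3 * Dv 4 * Dv 5 * Dv 6 * Dv 7 * Dv 8 * Dv 9 *
      Dv 10 * Dv 11 := by
    simp [Fin.prod_univ_succ]
    ring
  rw [h4]
  exact prod_neg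

theorem iter_p (k : ℕ) : k ≤ 21 → iteratedDeriv k p z0 = (rt k : ℝ) := by
  induction k using Nat.strong_induction_on with
  | _ k ih =>
    intro hk
    match k, ih, hk with
    | 0, _, _ =>
      rw [iteratedDeriv_zero, p_z0]
      norm_num [rt]
    | k + 1, ih, hk =>
      rw [iter_p_succ, rt_rec k (by omega), ih k (by omega) (by omega)]
      push_cast
      congr 1
      refine Finset.sum_congr rfl fun j hj => ?_
      have hj' : j < k + 1 := Finset.mem_range.1 hj
      rw [ih j (by omega) (by omega), ih (k - j) (by omega) (by omega)]

theorem iter_H (k : ℕ) (hk : k ≤ 22) : iteratedDeriv k H z0 = (ht k : ℝ) := by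
  match k, hk with
  | 0, _ => simp [ht, H_z0]
  | k + 1, hk =>
    rw [iter_H_succ, iter_p k (by omega)]
    simp [ht]

theorem iter_G (k : ℕ) : k ≤ 22 → iteratedDeriv k G z0 = (st k : ℝ) * G z0 := by
  induction k using Nat.strong_induction_on with
  | _ k ih =>
    intro hk
    match k, ih, hk with
    | 0, _, _ =>
      rw [iteratedDeriv_zero]
      norm_num [st]
    | k + 1, ih, hk =>
      rw [iter_G_succ, st_rec k (by omega)]
      push_cast
      rw [Finset.sum_mul]
      refine Finset.sum_congr rfl fun j hj => ?_
      have hj' : j < k + 1 := Finset.mem_range.1 hj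
      rw [iter_H j (by omega), ih (k - j) (by omega) (by omega)]
      ring

theorem hankel_neg : (Matrix.of fun i j : Fin 12 =>
    iteratedDeriv (i.val + j.val) G z0).det < 0 := by
  have h1 : (Matrix.of fun i j : Fin 12 => iteratedDeriv (i.val + j.val) G z0) =
      G z0 • ((Matrix.of fun i j : Fin 12 => st (i.val + j.val)).map (Rat.castHom ℝ)) := by
    ext i j
    have := i.isLt
    have := j.isLt
    simp only [Matrix.of_apply, Matrix.smul_apply, Matrix.map_apply, smul_eq_mul]
    rw [iter_G _ (by omega)]
    simp
    ring
  rw [h1, Matrix.det_smul]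
  have h2 := RingHom.map_det (Rat.castHom ℝ) (Matrix.of fun i j : Fin 12 => st (i.val + j.val))
  rw [RingHom.mapMatrix_apply] at h2
  rw [← h2]
  have h3 : (Rat.castHom ℝ) (Matrix.of fun i j : Fin 12 => st (i.val + j.val)).det < 0 := by
    have := det_st_neg
    simpa using this
  exact mul_neg_of_pos_of_neg (pow_pos (G_pos z0) _) h3

/-! ### The negative minor -/

theorem exists_neg_hankel : ∃ ε : ℝ, 0 < ε ∧
    (Matrix.of fun i j : Fin 12 => G (z0 + (i.val + j.val) * ε)).det < 0 := by
  by_contra hcon
  push Not at hcon
  have := Pool.Agent.X42.HankelPF.hankel_nonneg 12 G contDiff_G z0 (fun ε hε => hcon ε hε)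
  exact absurd hankel_neg (not_lt.2 this)

theorem sign_rev : Equiv.Perm.sign (Fin.revPerm : Equiv.Perm (Fin 12)) = 1 := by
  decide +kernel

/-- There is a negative minor of order 12, so `g` is not a Pólya frequency function of order 12,
and not one of infinite order. This is the negated form of Q1. -/
theorem result :
    (∃ x y : Fin 12 → ℝ, StrictMono x ∧ StrictMono y ∧
      (Matrix.of fun i j => g (x i - y j)).det < 0) ∧ ¬ IsPF 12 g ∧ ¬ IsPFInfty g := by
  have hmain : ∃ x y : Fin 12 → ℝ, StrictMono x ∧ StrictMono y ∧
      (Matrix.of fun i j => g (x i - y j)).det < 0 := by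
    obtain ⟨ε, hε, hneg⟩ := exists_neg_hankel
    refine ⟨fun i => z0 + i.val * ε, fun j => (j.val - 11 : ℝ) * ε, ?_, ?_, ?_⟩
    · intro i j hij
      have : (i.val : ℝ) < j.val := by exact_mod_cast hij
      simp only
      nlinarith
    · intro i j hij
      have : (i.val : ℝ) < j.val := by exact_mod_cast hij
      simp only
      nlinarith
    · -- the matrix is the Hankel matrix with reversed columns, up to diagonal factors
      set M : Matrix (Fin 12) (Fin 12) ℝ :=
        Matrix.of fun i j : Fin 12 => G (z0 + (i.val + j.val) * ε) with hM
      have h1 : (Matrix.of fun i j : Fin 12 => g (z0 + i.val * ε - (j.val - 11 : ℝ) * ε)) =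
          Matrix.diagonal (fun i : Fin 12 => Real.exp (c * (z0 + i.val * ε))) *
            (M.submatrix id Fin.revPerm) *
            Matrix.diagonal (fun j : Fin 12 => Real.exp (-c * ((j.val - 11 : ℝ) * ε))) := by
        ext i j
        rw [Matrix.mul_diagonal, Matrix.diagonal_mul]
        simp only [Matrix.of_apply, Matrix.submatrix_apply, id_eq, Fin.revPerm_apply, hM]
        have h2 : ((Fin.rev j).val : ℝ) = 11 - j.val := by
          have e : (Fin.rev j).val + j.val = 11 := by
            rw [Fin.val_rev]
            have := j.isLt
            omega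
          have e' := congrArg (Nat.cast : ℕ → ℝ) e
          push_cast at e'
          linarith
        rw [h2]
        unfold G
        have h3 : z0 + ((i.val : ℝ) + (11 - j.val)) * ε = z0 + i.val * ε - (j.val - 11 : ℝ) * ε := by
          ring
        rw [h3]
        have h4 : Real.exp (c * (z0 + i.val * ε)) *
            Real.exp (-c * (z0 + i.val * ε - (j.val - 11 : ℝ) * ε)) *
            Real.exp (-c * ((j.val - 11 : ℝ) * ε)) = 1 := by
          rw [← Real.exp_add, ← Real.exp_add]
          rw [Real.exp_eq_one_iff]
          ring
        calc g (z0 + i.val * ε - (j.val - 11 : ℝ) * ε)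
            = 1 * g (z0 + i.val * ε - (j.val - 11 : ℝ) * ε) := by ring
          _ = _ := by
            rw [← h4]
            ring
      rw [h1, Matrix.det_mul, Matrix.det_mul, Matrix.det_permute', sign_rev,
        Matrix.det_diagonal, Matrix.det_diagonal]
      have h5 : 0 < ∏ i : Fin 12, Real.exp (c * (z0 + i.val * ε)) :=
        Finset.prod_pos fun i _ => Real.exp_pos _
      have h6 : 0 < ∏ j : Fin 12, Real.exp (-c * ((j.val - 11 : ℝ) * ε)) :=
        Finset.prod_pos fun i _ => Real.exp_pos _
      have h7 : M.det < 0 := hneg
      simp only [Units.val_one, Int.cast_one, one_mul]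
      exact mul_neg_of_neg_of_pos (mul_neg_of_pos_of_neg h5 h7) h6
  have h12 : ¬ IsPF 12 g := by
    rintro ⟨_, _, h⟩
    obtain ⟨x, y, hx, hy, hneg⟩ := hmain
    exact absurd (h 12 le_rfl x y hx hy) (not_le.2 hneg)
  exact ⟨hmain, h12, fun h => h12 (h 12 (by norm_num))⟩

end Pool.Agent.Results.MP_41e59c_pr.NotPF
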